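import Pool.Agent.H4.BarnesB

set_option autoImplicit false

namespace Pool.Agent.Results.MP_fcb754_nt.Liouv

open Pool.Agent.H4.Barnes

/-- For every positive Liouville number `w`, the continuation of the Barnes double zeta function
with `a = 1` and weights `(1, w)` (so `r = d = 2` and `r - d / 2 = 1`) is not `O(t ^ (1/4))` on the
line `σ = 1`. -/
theorem result : ∀ w : ℝ, 0 < w → Liouville w →
    ∃ F : ℂ → ℂ, DifferentiableOn ℂ F {s : ℂ | s ≠ 1 ∧ s ≠ 2} ∧
      (∀ s : ℂ, 2 < s.re →
        F s = ∑' m : Fin 2 → ℕ, (((1 + ∑ j, (m j : ℝ) * ![1, w] j : ℝ) : ℂ) ^ (-s))) ∧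
      ∀ C : ℝ, ∃ t : ℝ, 2 ≤ t ∧ C * t ^ (1 / 4 : ℝ) < ‖F (1 + t * Complex.I)‖ := by
  intro w hw hL
  refine ⟨FF w, fun s hs => (FF_diff hw hs.1 hs.2).differentiableWithinAt,
    fun s hs => FF_series hw hs, fun C => ?_⟩
  by_contra hcon
  push Not at hcon
  have hcont : ContinuousOn (fun t : ℝ => FF w (1 + t * Complex.I)) (Set.Icc 1 2) := by
    intro t ht
    refine (ContinuousAt.comp (f := fun t : ℝ => (1 : ℂ) + t * Complex.I)
      (FF_diff hw ?_ ?_).continuousAt (by fun_prop)).continuousWithinAt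
    · intro h
      have := congrArg Complex.im h
      simp at this
      linarith [ht.1]
    · intro h
      have := congrArg Complex.re h
      norm_num at this
  obtain ⟨B, hB⟩ := isCompact_Icc.exists_bound_of_continuousOn hcont
  refine not_bound hw hL (C := |C| + |B|) fun t ht => ?_
  have r1 : 1 ≤ t ^ (1 / 4 : ℝ) := Real.one_le_rpow ht (by norm_num)
  have a1 := le_abs_self C
  have a2 := le_abs_self B
  have a3 := abs_nonneg C
  have a4 := abs_nonneg B
  rcases le_total t 2 with h | h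
  · have := hB t ⟨ht, h⟩
    nlinarith
  · have := hcon t h
    nlinarith

end Pool.Agent.Results.MP_fcb754_nt.Liouv
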